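import Pool.Agent.Lib_helper75.RVM.Density

/-!
Catching families and the strong polarized relation.

Let `κ` be an infinite cardinal and let `cov(N_κ)` be the least number of null sets of the usual
product measure of `2^{κ × ω}` which cover this space. A sequence of finite rectangles
`S_k × F_k ⊆ κ × ω` with `k ≤ |S_k| |F_k|` catches `X × B` if for some `m ≥ 1`, for infinitely many
`k`, `F_k ⊆ B`, `2 m ≤ |F_k|` and `|S_k| ≤ m |X ∩ S_k|`. For each family of fewer than `cov(N_κ)`
sequences of rectangles there is a colouring `c : κ × ω → 2` such that no set `X × B` on which `c` is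
constant is caught. So, if fewer than `cov(N_κ)` sequences catch all `X × B` with `|X| = κ` and `B`
infinite, then the strong polarized relation fails at `κ`. With all finite sets `F` for constant
`F_k = F` this gives: if the relation holds at `κ`, then for each family of fewer than `cov(N_κ)`
sequences `(S_k)` of finite subsets of `κ` with `|S_k| ≥ k` every `A ⊆ κ` of size `κ` contains a set
`X` of size `κ` with `|X ∩ S_k| / |S_k| → 0` for all sequences of the family.

Proof. The measure of the set of the `x ∈ 2^{κ × ω}` for which at least the `m`-th part of the rows of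
a rectangle `S × F` with `2 m ≤ |F|` is constant of colour `i` is at most
`2^{|S|} 2^{- |S| |F| / m} ≤ 2^{- |S| |F| / (2 m)}`; these numbers have a finite sum over the
rectangles of a sequence, and by Borel-Cantelli the set of the `x` for which this happens for
infinitely many rectangles of the sequence is null. Take `c` outside of all these null sets.
-/

open MeasureTheory Set Filter Topology Cardinal

namespace Pool.Agent.Results.MP_fb232a_lc.CatchingRectangles

/-- The strong polarized relation `(κ, ω) → (κ, ω)^{1,1}_2` for `κ = #α`. -/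
def StrongPolarized (α : Type) : Prop :=
  ∀ c : α → ℕ → Bool, ∃ A : Set α, #A = #α ∧ ∃ B : Set ℕ, B.Infinite ∧
    ∃ i : Bool, ∀ a ∈ A, ∀ n ∈ B, c a n = i

/-- A fair coin. -/
noncomputable def coin : Measure Bool := (2⁻¹ : ENNReal) • (Measure.dirac true + Measure.dirac false)

/-- The usual product measure of the space of the sequences of points of `2^ω` indexed by `α`. -/
noncomputable def prodMeasure (α : Type) : Measure (α → ℕ → Bool) :=
  Measure.infinitePi fun _ : α => Measure.infinitePi fun _ : ℕ => coin

/-- `cov(N_κ)` for `κ = #α`: the least size of a family of null sets which covers the space. -/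
noncomputable def covProd (α : Type) : Cardinal.{0} :=
  sInf {c | ∃ F : Set (Set (α → ℕ → Bool)), (∀ N ∈ F, prodMeasure α N = 0) ∧
    ⋃₀ F = Set.univ ∧ #F = c}

/-- The sequence `g` of finite rectangles catches `X × B`: for some `m ≥ 1` there are infinitely many
`k` such that `F ⊆ B`, `F` has at least `2 m` elements and `X` contains at least the `m`-th part of
`S`, where `g k = S × F`. -/
def Catches {α : Type} (g : ℕ → Finset α × Finset ℕ) (X : Set α) (B : Set ℕ) : Prop :=
  ∃ m : ℕ, 1 ≤ m ∧ ∃ᶠ k in atTop, ((g k).2 : Set ℕ) ⊆ B ∧ 2 * m ≤ (g k).2.card ∧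
    ∃ T : Finset α, T ⊆ (g k).1 ∧ (T : Set α) ⊆ X ∧ (g k).1.card ≤ m * T.card

/-- The density of `X` in the finite sets `s k` tends to `0`: for each `m`, for all large `k`, every
finite subset `T` of `X ∩ s k` satisfies `m |T| < |s k|`. -/
def DensityZero {α : Type} (s : ℕ → Finset α) (X : Set α) : Prop :=
  ∀ m : ℕ, ∀ᶠ k in atTop, ∀ T : Finset α, T ⊆ s k → (T : Set α) ⊆ X → m * T.card < (s k).card

/-- Let `κ = #α` be infinite and let `#ι < cov(N_κ)`. (1) For each family, indexed by `ι`, of
sequences of finite rectangles with `k ≤ |S_k| |F_k|`, there is a colouring of `κ × ω` such that no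
member of the family catches a homogeneous set `X × B`; hence, under the strong polarized relation,
each `A` of size `κ` contains some `X` of size `κ` such that for some infinite `B` no member of the
family catches `X × B`. (2) For each family, indexed by `ι`, of sequences of finite sets with
`k ≤ |s_k|` there is a colouring of `κ × ω` such that each `X` which is homogeneous with an infinite
set `B` has density zero along each member of the family; hence, under the strong polarized relation,
each `A` of size `κ` contains some `X` of size `κ` which has density zero along each member of the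
family. -/
theorem result (α : Type) [Infinite α] (ι : Type) (hι : #ι < covProd α) :
    (∀ g : ι → ℕ → Finset α × Finset ℕ, (∀ j k, k ≤ (g j k).1.card * (g j k).2.card) →
      (∃ c : α → ℕ → Bool, ∀ (X : Set α) (B : Set ℕ) (i : Bool),
        (∀ a ∈ X, ∀ n ∈ B, c a n = i) → ∀ j, ¬ Catches (g j) X B) ∧
      (StrongPolarized α → ∀ A : Set α, #A = #α → ∃ X ⊆ A, #X = #α ∧
        ∃ B : Set ℕ, B.Infinite ∧ ∀ j, ¬ Catches (g j) X B)) ∧
    ∀ s : ι → ℕ → Finset α, (∀ j k, k ≤ (s j k).card) →
      (∃ c : α → ℕ → Bool, ∀ (X : Set α) (B : Set ℕ) (i : Bool), B.Infinite →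
        (∀ a ∈ X, ∀ n ∈ B, c a n = i) → ∀ j, DensityZero (s j) X) ∧
      (StrongPolarized α → ∀ A : Set α, #A = #α → ∃ X ⊆ A, #X = #α ∧
        ∀ j, DensityZero (s j) X) := by
  refine ⟨fun g hg => ?_, fun s hs => ?_⟩
  · have hc : ∃ c : α → ℕ → Bool, ∀ (X : Set α) (B : Set ℕ) (i : Bool),
        (∀ a ∈ X, ∀ n ∈ B, c a n = i) → ∀ j, ¬ Catches (g j) X B := by
      obtain ⟨c, hc⟩ := Lib_helper75.RVM.exists_colouring ι hι g hg
      refine ⟨c, fun X B i hX j => ?_⟩
      rintro ⟨m, hm, hfreq⟩
      obtain ⟨k, ⟨h1, h2, T, hT, hTX, h3⟩, hk⟩ := (hfreq.and_eventually (hc X B i hX j m hm)).exists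
      exact absurd h3 (not_le.2 (hk h1 h2 T hT hTX))
    refine ⟨hc, fun hSP A hA => ?_⟩
    obtain ⟨c, hc⟩ := hc
    obtain ⟨X, hXA, hX, B, hB, i, hi⟩ := Lib_helper75.RVM.strongPolarized_on hSP hA c
    exact ⟨X, hXA, hX, B, hB, hc X B i hi⟩
  · have hc : ∃ c : α → ℕ → Bool, ∀ (X : Set α) (B : Set ℕ) (i : Bool), B.Infinite →
        (∀ a ∈ X, ∀ n ∈ B, c a n = i) → ∀ j, DensityZero (s j) X :=
      Lib_helper75.RVM.exists_density_colouring ι hι s hs
    refine ⟨hc, fun hSP A hA => ?_⟩
    obtain ⟨c, hc⟩ := hc
    obtain ⟨X, hXA, hX, B, hB, i, hi⟩ := Lib_helper75.RVM.strongPolarized_on hSP hA c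
    exact ⟨X, hXA, hX, hc X B i hB hi⟩

end Pool.Agent.Results.MP_fb232a_lc.CatchingRectangles
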