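import Pool.Agent.Lib_helper75.RVM.Basic

/-!
If the strong polarized relation holds at a real-valued measurable cardinal `κ ≤ 2^{ℵ₀}`, then the
union of every increasing `κ`-sequence of sets of reals, each of size less than `cov(N)`, is
meager. In particular every set of at most `κ` reals is meager, so `κ < non(M) ≤ 2^{ℵ₀}`.

Proof. Suppose that the union `X` of such a sequence `(X t)` is not meager. Each `h ∈ X` codes a
sequence of finite sets `F 0, F 1, …`, and the set `Bad F` of the `z ∈ 2^ω` that are constant on
`F n`, where `F n` has at least `n` elements, for infinitely many `n` is null. Since `X` is not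
meager, for each infinite `B ⊆ ω` some `h ∈ X` codes a sequence with `F n` equal to a subset of `B`
of size `n` for infinitely many `n`, and then `Bad F` contains each `z` that is constant on `B`.
Choose `z t` outside the null sets coded in `X t`; they do not cover `2^ω`, because
`κ ≤ cov(N)`. The colouring `c (t, n) = z t n` then has no homogeneous set of the required size.
-/

open MeasureTheory Set Filter Topology Cardinal

namespace Pool.Agent.Results.MP_fb232a_lc.MeagerChain

/-- The strong polarized relation `(κ, ω) → (κ, ω)^{1,1}_2` for `κ = #α`. -/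
def StrongPolarized (α : Type) : Prop :=
  ∀ c : α → ℕ → Bool, ∃ A : Set α, #A = #α ∧ ∃ B : Set ℕ, B.Infinite ∧
    ∃ i : Bool, ∀ a ∈ A, ∀ n ∈ B, c a n = i

/-- `#α` is a real-valued measurable cardinal: it is uncountable and there is a probability measure
defined on all subsets of `α`, vanishing on singletons, and additive for families of fewer than
`#α` pairwise disjoint sets. -/
def RealValuedMeasurable (α : Type) : Prop :=
  ℵ₀ < #α ∧ ∃ μ : @Measure α ⊤, @IsProbabilityMeasure α ⊤ μ ∧ (∀ a, μ {a} = 0) ∧
    ∀ (ι : Type) (A : ι → Set α), #ι < #α → Pairwise (Function.onFun Disjoint A) →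
      μ (⋃ i, A i) = ∑' i, μ (A i)

/-- A fair coin. -/
noncomputable def coin : Measure Bool := (2⁻¹ : ENNReal) • (Measure.dirac true + Measure.dirac false)

/-- The usual product measure of Cantor space. -/
noncomputable def cantorMeasure : Measure (ℕ → Bool) := Measure.infinitePi fun _ => coin

/-- `cov(N)`: the least size of a family of null sets covering Cantor space. -/
noncomputable def covNull : Cardinal.{0} :=
  sInf {c | ∃ F : Set (Set (ℕ → Bool)), (∀ N ∈ F, cantorMeasure N = 0) ∧ ⋃₀ F = Set.univ ∧ #F = c}

/-- If `κ ≤ 2^{ℵ₀}` is real-valued measurable and satisfies the strong polarized relation, then the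
union of every increasing `κ`-sequence of subsets of Baire space, each of size less than
`max(κ, cov(N))`, is meager. -/
theorem result (α : Type) (h : RealValuedMeasurable α) (hc : #α ≤ 𝔠) (hSP : StrongPolarized α)
    (X : (#α).ord.ToType → Set (ℕ → ℕ)) (hX : Monotone X)
    (hcard : ∀ t, #(X t) < max #α covNull) : IsMeagre (⋃ t, X t) := by
  classical
  by_contra hcon
  have hle : max #α covNull = Lib_helper75.RVM.covNull :=
    max_eq_right (Lib_helper75.RVM.le_covNull h hc)
  have hne : Nonempty (#α).ord.ToType := by
    rw [← mk_ne_zero_iff, mk_ord_toType]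
    exact (lt_of_le_of_lt bot_le h.1).ne'
  have hex : ∀ g : ℕ → ℕ, g ∈ ⋃ t, X t → ({t | g ∈ X t} : Set (#α).ord.ToType).Nonempty :=
    fun g hg => mem_iUnion.1 hg
  let ρ : (ℕ → ℕ) → (#α).ord.ToType := fun g =>
    if hg : g ∈ ⋃ t, X t then wellFounded_lt.min {t | g ∈ X t} (hex g hg) else hne.some
  refine Lib_helper75.RVM.not_strongPolarized_of_chain (⋃ t, X t) hcon ρ (fun t => ?_) hSP
  rw [← hle]
  refine lt_of_le_of_lt ?_ (hcard t)
  have hmem : ∀ g : {g // g ∈ ⋃ t, X t ∧ ρ g ≤ t}, g.1 ∈ X t := by
    rintro ⟨g, hg, hgt⟩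
    have h1 : g ∈ X (ρ g) := by
      have := wellFounded_lt.min_mem {t | g ∈ X t} (hex g hg)
      have h2 : ρ g = wellFounded_lt.min {t | g ∈ X t} (hex g hg) := dif_pos hg
      rw [h2]
      exact this
    exact hX hgt h1
  exact mk_le_of_injective (f := fun g : {g // g ∈ ⋃ t, X t ∧ ρ g ≤ t} => (⟨g.1, hmem g⟩ : X t))
    fun g g' hgg => Subtype.ext (Subtype.mk_eq_mk.1 hgg)

end Pool.Agent.Results.MP_fb232a_lc.MeagerChain
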