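import Pool.Agent.Lib_helper75.RVM.Laws

/-!
Laws of total measures and the strong polarized relation at a real-valued measurable cardinal `κ`.

A total measure is a probability measure on all subsets of `κ`, `κ`-additive and vanishing on
singletons. If the strong polarized relation holds at `κ`, then for all `A ⊆ κ` of size `κ`, all
`y : κ → 2^ω` whose fibres in `A` have size less than `κ`, and all families of fewer than `κ` finite
Borel measures on `2^ω`, some total measure concentrated on `A` has an image under `y` which is
mutually singular to all members of the family; so `κ` many total measures concentrated on `A` have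
pairwise mutually singular images.

Proof. Suppose that no such measure exists; we may assume `A = κ`. Let `M` be a maximal pairwise
mutually singular family of images under `y` of total measures. A finite measure is non-singular to
only countably many members of `M`, so `M` has size less than `κ`. For `i ≠ j` in `M` take a Borel
set `s i j` which is `i`-null with `j`-null complement, and let `B i` be the set of the `z` with
`z ∉ s i j` and `z ∈ s j i` for all `j ≠ i` in `M`. The sets `B i` are pairwise disjoint, and
`y a ∈ B i` almost surely for each total measure whose image is absolutely continuous with respect to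
`i`. The members of `M` have no atoms, so there are Borel maps `f i : 2^ω → 2^ω` carrying `i` to the
coin tossing measure. Put `x a = f i (y a)` if `y a ∈ B i`. Suppose that `x a` lies in a null set `N`
for `κ` many `a`. Take a total measure concentrated on the set of these `a`. Its image is not singular
to some `i` in `M`, and after conditioning we may assume that the image is absolutely continuous with
respect to `i`. Then `x a = f i (y a) ∉ N` almost surely, a contradiction. So `x` is a `κ`-Sierpinski
sequence, and `c (a, n) = x a n` refutes the relation.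
-/

open MeasureTheory Set Filter Topology Cardinal

namespace Pool.Agent.Results.MP_fb232a_lc.SingularLaws

/-- The strong polarized relation `(κ, ω) → (κ, ω)^{1,1}_2` for `κ = #α`. -/
def StrongPolarized (α : Type) : Prop :=
  ∀ c : α → ℕ → Bool, ∃ A : Set α, #A = #α ∧ ∃ B : Set ℕ, B.Infinite ∧
    ∃ i : Bool, ∀ a ∈ A, ∀ n ∈ B, c a n = i

/-- `μ` is a probability measure defined on all subsets of `α`, vanishing on singletons, and additive
for families of fewer than `#α` pairwise disjoint sets. -/
def IsTot (α : Type) (μ : @Measure α ⊤) : Prop :=
  @IsProbabilityMeasure α ⊤ μ ∧ (∀ a, μ {a} = 0) ∧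
    ∀ (ι : Type) (A : ι → Set α), #ι < #α → Pairwise (Function.onFun Disjoint A) →
      μ (⋃ i, A i) = ∑' i, μ (A i)

/-- `#α` is a real-valued measurable cardinal. -/
def RealValuedMeasurable (α : Type) : Prop := ℵ₀ < #α ∧ ∃ μ : @Measure α ⊤, IsTot α μ

/-- The image of a measure defined on all subsets of `α` under a map into Cantor space. -/
noncomputable def law {α : Type} (y : α → ℕ → Bool) (μ : @Measure α ⊤) : Measure (ℕ → Bool) :=
  @Measure.map α (ℕ → Bool) ⊤ _ y μ

/-- A fair coin. -/
noncomputable def coin : Measure Bool := (2⁻¹ : ENNReal) • (Measure.dirac true + Measure.dirac false)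

/-- The usual product measure of Cantor space. -/
noncomputable def cantorMeasure : Measure (ℕ → Bool) := Measure.infinitePi fun _ => coin

/-- A `κ`-Sierpinski sequence, `κ = #α`: each null set contains fewer than `κ` of its terms. -/
def Sierpinski {α : Type} (x : α → ℕ → Bool) : Prop :=
  ∀ N : Set (ℕ → Bool), cantorMeasure N = 0 → #(x ⁻¹' N) < #α

/-- Let `κ = #α` be real-valued measurable. (1) There is a `κ`-Sierpinski sequence if and only if for
some `y : α → 2^ω` with all fibres of size less than `κ` some family of fewer than `κ` finite measures
is singular to the image of no total measure. (2) Under the strong polarized relation, if `#A = κ` and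
`y` has fibres of size less than `κ` in `A`, then for each family of fewer than `κ` finite measures
some total measure concentrated on `A` has an image singular to all of them, and (3) there are `κ` many
total measures concentrated on `A` with pairwise singular images. -/
theorem result (α : Type) (h : RealValuedMeasurable α) :
    ((∃ x : α → ℕ → Bool, Sierpinski x) ↔
      ∃ (y : α → ℕ → Bool) (ι : Type) (ν : ι → Measure (ℕ → Bool)),
        (∀ p, #(y ⁻¹' {p}) < #α) ∧ #ι < #α ∧ (∀ i, IsFiniteMeasure (ν i)) ∧
          ∀ μ, IsTot α μ → ∃ i, ¬ law y μ ⟂ₘ ν i) ∧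
    (StrongPolarized α → ∀ (A : Set α) (y : α → ℕ → Bool), #A = #α →
      (∀ p, #(A ∩ y ⁻¹' {p} : Set α) < #α) →
      (∀ (ι : Type) (ν : ι → Measure (ℕ → Bool)), #ι < #α → (∀ i, IsFiniteMeasure (ν i)) →
        ∃ μ, IsTot α μ ∧ μ Aᶜ = 0 ∧ ∀ i, law y μ ⟂ₘ ν i) ∧
      ∃ μ : α → @Measure α ⊤, (∀ a, IsTot α (μ a) ∧ μ a Aᶜ = 0) ∧
        Pairwise fun a b => law y (μ a) ⟂ₘ law y (μ b)) := by
  refine ⟨⟨?_, ?_⟩, ?_⟩
  · rintro ⟨x, hx⟩
    refine ⟨x, Unit, fun _ => cantorMeasure, fun p => ?_, ?_, fun _ => ?_, fun μ hμ => ⟨(), ?_⟩⟩
    · exact hx _ (Lib_helper75.RVM.cantorMeasure_singleton p)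
    · exact lt_of_le_of_lt (by simp) (one_lt_aleph0.trans h.1)
    · exact inferInstanceAs (IsFiniteMeasure Lib_helper75.RVM.cantorMeasure)
    · exact Lib_helper75.RVM.not_singular_of_sierpinski x hx hμ
  · rintro ⟨y, ι, ν, hy, hι, hν, hdom⟩
    exact Lib_helper75.RVM.exists_sierpinski h.1 h.2 y hy ι hι ν hν hdom
  · intro hSP A y hA hy
    have hstep := Lib_helper75.RVM.exists_singular h.1 h.2 hSP A hA y hy
    exact ⟨hstep, Lib_helper75.RVM.exists_family y A hstep⟩

end Pool.Agent.Results.MP_fb232a_lc.SingularLaws
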